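import Pool.Agent.Lib_helper47.TA.F2.MMN2

/-!
# Project TA, second part: from means to windows
-/

set_option autoImplicit false

namespace Pool.Agent.TA

open Pool.Agent.HOM
open scoped Pointwise

theorem ta_windows2 (D : Set ℕ) (k : ℕ) (hD : Pool.Agent.Lib_helper23.PG.HitsBins 4 k D) (q : ℕ)
    (hq : 0 < q) (h6 : 6 ∣ q) (ε : ℝ) (hε : 0 < ε) :
    (∃ L : ℕ, ∀ a N : ℕ, L ≤ N →
      (1 / 2 - ε) * N ≤ (({j : ℕ | q * (a + j) ∈ D} ∩ Set.Iio N).ncard : ℝ)) ∨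
    ∃ (r : ℕ) (J : Finset (ZMod (4 * r - 1))), 0 < r ∧ Prog r J ∧ 2 * ε * (4 * (r : ℝ) - 1) ≤ 1 ∧
      ∀ η : ℝ, 0 < η → ∃ L : ℕ, ∀ a N : ℕ, L ≤ N →
        (({j : ℕ | ((a + j : ℕ) : ZMod (4 * r - 1)) ∈ J ∧ q * (a + j) ∉ D} ∩
          Set.Iio N).ncard : ℝ) ≤ η * N := by
  by_cases hA : ∃ L : ℕ, ∀ a N : ℕ, L ≤ N →
      (1 / 2 - ε) * N ≤ (({j : ℕ | q * (a + j) ∈ D} ∩ Set.Iio N).ncard : ℝ)
  · exact Or.inl hA
  refine Or.inr ?_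
  push Not at hA
  have hnat : ∀ a j : ℕ, ((q : ℤ) * ((a : ℤ) + j)).natAbs = q * (a + j) := by
    intro a j
    rw [Int.natAbs_mul, Int.natAbs_natCast]
    congr 1
  -- an invariant mean
  have hw : ∀ L : ℕ, ∃ (a : ℤ) (N : ℕ), L ≤ N ∧ 0 < N ∧ (1 / 2 + ε) * N ≤
      ∑ j ∈ Finset.range N,
        ({x : ℤ | ((q : ℤ) * x).natAbs ∉ D}.indicator fun _ => (1 : ℝ)) (a + j) := by
    intro L
    obtain ⟨a, N, hL, h⟩ := hA L
    have hN : 0 < N := by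
      rcases Nat.eq_zero_or_pos N with h0 | h0
      · subst h0
        have h1 : ({j : ℕ | q * (a + j) ∈ D} ∩ Set.Iio 0) = ∅ := by
          ext j
          simp
        rw [h1] at h
        simp at h
      · exact h0
    refine ⟨a, N, hL, hN, ?_⟩
    have h1 := fin_count {x : ℤ | ((q : ℤ) * x).natAbs ∈ D} {j : ℕ | q * (a + j) ∈ D} a N
      (fun j => by simp only [Set.mem_setOf_eq, hnat])
    have h2 : ∑ j ∈ Finset.range N,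
        ({x : ℤ | ((q : ℤ) * x).natAbs ∉ D}.indicator fun _ => (1 : ℝ)) ((a : ℤ) + j) +
        ∑ j ∈ Finset.range N,
        ({x : ℤ | ((q : ℤ) * x).natAbs ∈ D}.indicator fun _ => (1 : ℝ)) ((a : ℤ) + j) = N := by
      rw [← Finset.sum_add_distrib]
      have h3 : ∀ j ∈ Finset.range N,
          ({x : ℤ | ((q : ℤ) * x).natAbs ∉ D}.indicator fun _ => (1 : ℝ)) ((a : ℤ) + j) +
          ({x : ℤ | ((q : ℤ) * x).natAbs ∈ D}.indicator fun _ => (1 : ℝ)) ((a : ℤ) + j) = 1 := by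
        intro j _
        by_cases hj : ((q : ℤ) * ((a : ℤ) + j)).natAbs ∈ D <;> simp [Set.indicator, hj]
      rw [Finset.sum_congr rfl h3]
      simp
    rw [h1] at h2
    linarith
  obtain ⟨m, hm, hmc⟩ := mean_of_windows _ (bd_ind _) (1 / 2 + ε) hw
  have hC0 : (1 : ℝ) / 2 + ε ≤ ms m {n : ℤ | n ≠ 0 ∧ ((q : ℤ) * n).natAbs ∉ D} := by
    have h1 := fin_zero m hm {x : ℤ | ((q : ℤ) * x).natAbs ∉ D}
    have h2 : ms m {x : ℤ | ((q : ℤ) * x).natAbs ∉ D} =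
        m.L ({x : ℤ | ((q : ℤ) * x).natAbs ∉ D}.indicator fun _ => (1 : ℝ)) := rfl
    rw [← h2, h1] at hmc
    exact hmc
  obtain ⟨m', hm', hev, hms⟩ := sym_mean m hm
  have hneg : ∀ x : ℤ, -x ∈ {n : ℤ | n ≠ 0 ∧ ((q : ℤ) * n).natAbs ∉ D} ↔
      x ∈ {n : ℤ | n ≠ 0 ∧ ((q : ℤ) * n).natAbs ∉ D} := by
    intro x
    simp only [Set.mem_setOf_eq, mul_neg, Int.natAbs_neg, ne_eq, neg_eq_zero]
  have hC1 : (1 : ℝ) / 2 + ε ≤ ms m' {n : ℤ | n ≠ 0 ∧ ((q : ℤ) * n).natAbs ∉ D} := by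
    rw [hms _ hneg]
    exact hC0
  obtain ⟨r, J, hr, hJ, hb, hN⟩ := mean_main2 m'
    {n : ℤ | n ≠ 0 ∧ ((q : ℤ) * n).natAbs ∉ D} ⟨hm', hev, hneg⟩ (k4n_of_bins D k hD q hq h6)
    (by linarith)
  refine ⟨r, J, hr, hJ, ?_, ?_⟩
  · have h1 : (1 : ℝ) ≤ r := by exact_mod_cast hr
    have h2 : (0 : ℝ) ≤ 4 * (r : ℝ) - 1 := by linarith
    refine le_trans (mul_le_mul_of_nonneg_right ?_ h2) hb
    linarith
  · intro η hη
    by_contra hcon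
    push Not at hcon
    have hw' : ∀ L : ℕ, ∃ (a : ℤ) (N : ℕ), L ≤ N ∧ 0 < N ∧ η * N ≤
        ∑ j ∈ Finset.range N, ({x : ℤ | (x : ZMod (4 * r - 1)) ∈ J ∧
          ((q : ℤ) * x).natAbs ∉ D}.indicator fun _ => (1 : ℝ)) (a + j) := by
      intro L
      obtain ⟨a, N, hL, h⟩ := hcon L
      have hN : 0 < N := by
        rcases Nat.eq_zero_or_pos N with h0 | h0
        · subst h0
          have h1 : ({j : ℕ | ((a + j : ℕ) : ZMod (4 * r - 1)) ∈ J ∧ q * (a + j) ∉ D} ∩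
              Set.Iio 0) = ∅ := by
            ext j
            simp
          rw [h1] at h
          simp at h
        · exact h0
      refine ⟨a, N, hL, hN, ?_⟩
      have h1 := fin_count {x : ℤ | (x : ZMod (4 * r - 1)) ∈ J ∧ ((q : ℤ) * x).natAbs ∉ D}
        {j : ℕ | ((a + j : ℕ) : ZMod (4 * r - 1)) ∈ J ∧ q * (a + j) ∉ D} a N
        (fun j => by simp only [Set.mem_setOf_eq, hnat, Nat.cast_add, Int.cast_add,
          Int.cast_natCast])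
      rw [h1]
      exact h.le
    obtain ⟨m₁, hm₁, h1⟩ := mean_of_windows _ (bd_ind _) η hw'
    have h2 : m₁.L ({x : ℤ | (x : ZMod (4 * r - 1)) ∈ J ∧
        ((q : ℤ) * x).natAbs ∉ D}.indicator fun _ => (1 : ℝ)) =
        ms m₁ {x : ℤ | (x : ZMod (4 * r - 1)) ∈ J ∧ ((q : ℤ) * x).natAbs ∉ D} := rfl
    rw [h2, fin_zero m₁ hm₁] at h1
    have h3 : ms m₁ {x : ℤ | x ≠ 0 ∧ x ∈ {x : ℤ | (x : ZMod (4 * r - 1)) ∈ J ∧
        ((q : ℤ) * x).natAbs ∉ D}} = 0 := by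
      refine ms_null_mono m₁ (fun x hx => ?_) (hN m₁ hm₁)
      exact ⟨⟨hx.1, hx.2.2⟩, hx.2.1⟩
    linarith

/-- the points `n` with `‖e n / (4 r - 1)‖ < 1 / 4` -/
theorem prog_mem (r : ℕ) (hr : 0 < r) (J : Finset (ZMod (4 * r - 1))) (hJ : Prog r J) :
    ∃ e : ℤ, IsCoprime e ((4 * r - 1 : ℕ) : ℤ) ∧ ∀ n : ℤ,
      |((e : ℝ) * n / (4 * r - 1 : ℕ)) - round ((e : ℝ) * n / (4 * r - 1 : ℕ))| < 1 / 4 →
        (n : ZMod (4 * r - 1)) ∈ J := by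
  obtain ⟨d, ⟨e, c, hec⟩, h⟩ := hJ
  have hQ : ((4 * r - 1 : ℕ) : ℤ) = 4 * (r : ℤ) - 1 := by
    rw [Nat.cast_sub (by omega)]
    push_cast
    ring
  have hQ0 : (0 : ℝ) < ((4 * r - 1 : ℕ) : ℝ) := by
    have : 0 < 4 * r - 1 := by omega
    exact_mod_cast this
  have hQR : ((4 * r - 1 : ℕ) : ℝ) = 4 * (r : ℝ) - 1 := by
    exact_mod_cast congrArg (fun z : ℤ => (z : ℝ)) hQ
  refine ⟨e, ⟨d, c, by rw [hQ, mul_comm d e]; exact hec⟩, fun n hn => h n ?_⟩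
  obtain ⟨z, hz⟩ : ∃ z : ℤ, z = round ((e : ℝ) * n / (4 * r - 1 : ℕ)) := ⟨_, rfl⟩
  rw [← hz] at hn
  refine ⟨e * n - (4 * (r : ℤ) - 1) * z, ?_, ?_⟩
  · have h1 : |(e : ℝ) * n - (4 * (r : ℝ) - 1) * z| < (4 * (r : ℝ) - 1) / 4 := by
      have h2 : (e : ℝ) * n - (4 * (r : ℝ) - 1) * z =
          ((4 * r - 1 : ℕ) : ℝ) * ((e : ℝ) * n / (4 * r - 1 : ℕ) - z) := by
        rw [← hQR]
        field_simp
      rw [h2, abs_mul, abs_of_pos hQ0, hQR]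
      rw [hQR] at hn hQ0
      calc (4 * (r : ℝ) - 1) * |(e : ℝ) * n / (4 * (r : ℝ) - 1) - z| <
          (4 * (r : ℝ) - 1) * (1 / 4) := mul_lt_mul_of_pos_left hn hQ0
        _ = (4 * (r : ℝ) - 1) / 4 := by ring
    have h3 : |(e : ℝ) * n - (4 * (r : ℝ) - 1) * z| < r := by linarith
    have h4 : ((|e * n - (4 * (r : ℤ) - 1) * z| : ℤ) : ℝ) < ((r : ℤ) : ℝ) := by
      push_cast
      exact h3
    exact_mod_cast h4
  · refine ⟨c * n + z * d, ?_⟩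
    linear_combination (-n) * hec

/-- The structure theorem: the set `{n : ‖e n / Q‖ < 1 / 4}`, `Q = 3 mod 4`. -/
theorem ta_windows3 (D : Set ℕ) (k : ℕ) (hD : Pool.Agent.Lib_helper23.PG.HitsBins 4 k D) (q : ℕ)
    (hq : 0 < q) (h6 : 6 ∣ q) (ε : ℝ) (hε : 0 < ε) :
    (∃ L : ℕ, ∀ a N : ℕ, L ≤ N →
      (1 / 2 - ε) * N ≤ (({j : ℕ | q * (a + j) ∈ D} ∩ Set.Iio N).ncard : ℝ)) ∨
    ∃ (Q : ℕ) (e : ℤ), Q % 4 = 3 ∧ IsCoprime e (Q : ℤ) ∧ 2 * ε * (Q : ℝ) ≤ 1 ∧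
      ∀ η : ℝ, 0 < η → ∃ L : ℕ, ∀ a N : ℕ, L ≤ N →
        (({j : ℕ | |((e : ℝ) * (a + j) / Q) - round ((e : ℝ) * (a + j) / Q)| < 1 / 4 ∧
          q * (a + j) ∉ D} ∩ Set.Iio N).ncard : ℝ) ≤ η * N := by
  rcases ta_windows2 D k hD q hq h6 ε hε with h | ⟨r, J, hr, hJ, hb, h⟩
  · exact Or.inl h
  right
  obtain ⟨e, he, hem⟩ := prog_mem r hr J hJ
  refine ⟨4 * r - 1, e, by omega, he, ?_, fun η hη => ?_⟩
  · have hQ : ((4 * r - 1 : ℕ) : ℝ) = 4 * (r : ℝ) - 1 := by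
      rw [Nat.cast_sub (by omega)]
      push_cast
      ring
    rw [hQ]
    exact hb
  · obtain ⟨L, hL⟩ := h η hη
    refine ⟨L, fun a N hN => le_trans ?_ (hL a N hN)⟩
    have hfin : ({j : ℕ | ((a + j : ℕ) : ZMod (4 * r - 1)) ∈ J ∧ q * (a + j) ∉ D} ∩
        Set.Iio N).Finite := (Set.finite_Iio N).inter_of_right _
    refine Nat.cast_le.2 (Set.ncard_le_ncard ?_ hfin)
    rintro j ⟨⟨h1, h2⟩, h3⟩
    refine ⟨⟨?_, h2⟩, h3⟩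
    have h4 := hem ((a : ℤ) + j) (by
      push_cast at h1 ⊢
      exact h1)
    push_cast at h4 ⊢
    exact h4

end Pool.Agent.TA
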