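import Pool.Agent.Lib_helper47.TA.F2.RES2

/-!
# Project TA, second part: the theorem for means
-/

set_option autoImplicit false

namespace Pool.Agent.TA

open Pool.Agent.HOM
open scoped Pointwise

private theorem mmn2_phi_zero (m : Mn ℤ) (X : Set ℤ) (t : ℤ)
    (ht : t ∉ {t : ℤ | ∃ p ∈ X, ∃ p' ∈ X, t = p - p'}) : phi m X t = 0 := by
  have h1 : {x : ℤ | x ∈ X ∧ x + t ∈ X} = ∅ := by
    rw [Set.eq_empty_iff_forall_notMem]
    rintro x ⟨h1, h2⟩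
    exact ht ⟨x + t, h2, x, h1, by ring⟩
  unfold phi
  rw [h1, ms_empty]

theorem mean_main2 (m : Mn ℤ) (C : Set ℤ) (h : Sym m C) (hk : K4N C) (hδ : 1 / 2 < ms m C) :
    ∃ (k : ℕ) (J : Finset (ZMod (4 * k - 1))), 0 < k ∧ Prog k J ∧ (2 * ms m C - 1) * (4 * (k : ℝ) - 1) ≤ 1 ∧
      Null {n : ℤ | n ∈ C ∧ (n : ZMod (4 * k - 1)) ∈ J} := by
  obtain ⟨η, hη⟩ : ∃ η : ℝ, η = (ms m C - 1 / 2) / 100 := ⟨_, rfl⟩
  have hη0 : 0 < η := by rw [hη]; linarith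
  have hηδ : 100 * η ≤ ms m C - 1 / 2 := by rw [hη]; linarith
  obtain ⟨X, hX⟩ := cls_exists h η hη0 hηδ
  have hΔ : 0 < 2 * ms m C - 1 - 2 * η := by linarith
  have hgap : ∀ t ∈ {t : ℤ | ∃ p ∈ X, ∃ p' ∈ X, t = p - p'},
      2 * ms m C - 1 - 2 * η ≤ phi m X t := by
    rintro t ⟨p, hp, p', hp', rfl⟩
    exact cls_gap h hk η hη0 X hX p p' hp hp'
  obtain ⟨F, c, hF⟩ := wiener_approx m h.inv X ((2 * ms m C - 1 - 2 * η) / 16) (by linarith)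
  obtain ⟨W, R', hW, hper, hn1, hn2⟩ := period_exists (phi m X) (2 * ms m C - 1 - 2 * η) hΔ
    {t : ℤ | ∃ p ∈ X, ∃ p' ∈ X, t = p - p'} hgap (mmn2_phi_zero m X) F c hF
  have htyp : ∀ t ∈ {t : ℤ | ∃ p ∈ X, ∃ p' ∈ X, t = p - p'}, t ∉ Typ m C η := by
    intro t ht ht'
    have h1 := hgap t ht
    have h2 := cls_typ h η hη0 X hX t ht'
    linarith
  have hXm : ms m X = ms m C / 2 := cls_ms h hk η hη0 X hX
  have hnull := typ_null h hk η hη0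
  have hCT : ms m C ≤ ms m (Typ m C η) := by
    have h1 := ms_diff_add_inter m C (Typ m C η)
    have h2 := hnull m h.inv
    have h3 := ms_mono m (Set.inter_subset_right (s := C) (t := Typ m C η))
    linarith
  have hR : ms m R' < 1 / 2 := by
    have h1 : ms m R' = ms m {t : ℤ | ∃ p ∈ X, ∃ p' ∈ X, t = p - p'} :=
      ms_congr_null m (hn2 m h.inv) (hn1 m h.inv)
    have h2 := ms_disj m (S := {t : ℤ | ∃ p ∈ X, ∃ p' ∈ X, t = p - p'}) (T := Typ m C η) htyp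
    have h3 := ms_le_one m ({t : ℤ | ∃ p ∈ X, ∃ p' ∈ X, t = p - p'} ∪ Typ m C η)
    rw [h1]
    linarith
  obtain ⟨k, J, hk0, hJ1, hJ4, hJ5⟩ := residues2 m h.inv h.evn X (by linarith) W hW R'
    hper (hn1 m h.inv) hR
  refine ⟨k, J, hk0, hJ1, ?_, fun m₁ hm₁ => ?_⟩
  · rw [hXm] at hJ4
    nlinarith
  · refine ms_null_mono m₁ (T := (C \ Typ m C η) ∪
      (R' \ {t : ℤ | ∃ p ∈ X, ∃ p' ∈ X, t = p - p'})) ?_ ?_
    · rintro n ⟨hn, hnJ⟩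
      by_cases hT : n ∈ Typ m C η
      · exact Or.inr ⟨hJ5 n hnJ, fun hR => htyp n hR hT⟩
      · exact Or.inl ⟨hn, hT⟩
    · refine le_antisymm ?_ (ms_nonneg m₁ _)
      have h1 := ms_union_le m₁ (C \ Typ m C η) (R' \ {t : ℤ | ∃ p ∈ X, ∃ p' ∈ X, t = p - p'})
      rw [hnull m₁ hm₁, hn2 m₁ hm₁] at h1
      linarith

example : type_of% @mean_main2 := @mean_main2

end Pool.Agent.TA
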