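import Pool.Agent.Lib_helper47.TA.F2.V8

/-!
# Small difference sets, block V7: the case of `ZMod (4 k - 1)`
-/

set_option autoImplicit false

namespace Pool.Agent.TA.V

open scoped Pointwise

theorem zmod_run (k : ℕ) (hk : 0 < k) (S : Finset (ZMod (4 * k - 1))) (hS : S.card = k)
    (hR : (S - S).card = 2 * k - 1) :
    ∃ d : ℤ, IsCoprime d (4 * (k : ℤ) - 1) ∧
      ∀ n : ℤ, (∃ i : ℤ, |i| < k ∧ (4 * (k : ℤ) - 1) ∣ n - i * d) →
        (n : ZMod (4 * k - 1)) ∈ S - S := by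
  have hN0 : 0 < 4 * k - 1 := by omega
  have : NeZero (4 * k - 1) := ⟨by omega⟩
  have hQ : ((4 * k - 1 : ℕ) : ℤ) = 4 * (k : ℤ) - 1 := by
    rw [Nat.cast_sub (by omega)]
    push_cast
    ring
  rcases Nat.lt_or_ge k 2 with h2 | h2
  · have hk1 : k = 1 := by omega
    subst hk1
    refine ⟨1, isCoprime_one_left, fun n ⟨i, hi, hn⟩ => ?_⟩
    have hi0 : i = 0 := by
      have : |i| < 1 := by exact_mod_cast hi
      exact Int.abs_lt_one_iff.1 this
    subst hi0
    obtain ⟨s, hs⟩ := Finset.card_pos.1 (by rw [hS]; norm_num : 0 < S.card)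
    have h3 : ((n : ℤ) : ZMod (4 * 1 - 1)) = 0 := by
      rw [ZMod.intCast_zmod_eq_zero_iff_dvd, hQ]
      simpa using hn
    rw [h3]
    exact Finset.mem_sub.2 ⟨s, hs, s, hs, sub_self s⟩
  · have hE : Ext k S := ⟨h2, by rw [ZMod.card]; omega, hS, by rw [hR]; omega⟩
    obtain ⟨d, hd, hkd⟩ := ext_step k S hE
    obtain ⟨hord, s, hs⟩ := ext_run k S hE d hd hkd
    obtain ⟨δ, rfl⟩ := ZMod.intCast_surjective d
    refine ⟨δ, ?_, fun n ⟨i, hi, hn⟩ => ?_⟩
    · -- a common divisor `g` of `δ` and `4 k - 1` kills `((4 k - 1) / g) • δ`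
      rw [← hQ, Int.isCoprime_iff_gcd_eq_one]
      set g : ℕ := Int.gcd δ ((4 * k - 1 : ℕ) : ℤ) with hg
      have hg1 : (g : ℤ) ∣ δ := Int.gcd_dvd_left _ _
      have hg2 : (g : ℤ) ∣ ((4 * k - 1 : ℕ) : ℤ) := Int.gcd_dvd_right _ _
      obtain ⟨m, hm⟩ := Int.natCast_dvd_natCast.1 hg2
      obtain ⟨c, hc⟩ := hg1
      have h3 : m • ((δ : ℤ) : ZMod (4 * k - 1)) = 0 := by
        rw [nsmul_eq_mul]
        have h4 : ((m : ℕ) : ZMod (4 * k - 1)) * ((δ : ℤ) : ZMod (4 * k - 1)) =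
            (((m : ℤ) * δ : ℤ) : ZMod (4 * k - 1)) := by push_cast; ring
        rw [h4, ZMod.intCast_zmod_eq_zero_iff_dvd]
        refine ⟨c, ?_⟩
        rw [hm]
        nth_rewrite 1 [hc]
        push_cast
        ring
      have h5 := addOrderOf_dvd_of_nsmul_eq_zero h3
      rw [hord] at h5
      have hm0 : 0 < m := by
        rcases Nat.eq_zero_or_pos m with h0 | h0
        · rw [h0, mul_zero] at hm
          omega
        · exact h0
      have h6 := Nat.le_of_dvd hm0 h5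
      rw [hm] at h6
      have h7 : g ≤ 1 := by
        by_contra h8
        push Not at h8
        have : 2 * m ≤ g * m := Nat.mul_le_mul_right m h8
        omega
      have h8 : 0 < g := by
        rcases Nat.eq_zero_or_pos g with h0 | h0
        · rw [h0, zero_mul] at hm
          omega
        · exact h0
      omega
    · have h3 : ((n : ℤ) : ZMod (4 * k - 1)) = ((i * δ : ℤ) : ZMod (4 * k - 1)) := by
        have h4 : ((n - i * δ : ℤ) : ZMod (4 * k - 1)) = 0 := by
          rw [ZMod.intCast_zmod_eq_zero_iff_dvd, hQ]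
          exact hn
        rw [← sub_eq_zero, ← Int.cast_sub]
        exact h4
      obtain ⟨hi1, hi2⟩ := abs_lt.1 hi
      refine Finset.mem_sub.2 ⟨s + (i.toNat) • ((δ : ℤ) : ZMod (4 * k - 1)),
        (hs _).2 ⟨_, by omega, rfl⟩, s + ((-i).toNat) • ((δ : ℤ) : ZMod (4 * k - 1)),
        (hs _).2 ⟨_, by omega, rfl⟩, ?_⟩
      rw [h3, nsmul_eq_mul, nsmul_eq_mul]
      have h4 : ((i.toNat : ℕ) : ZMod (4 * k - 1)) - (((-i).toNat : ℕ) : ZMod (4 * k - 1)) =
          ((i : ℤ) : ZMod (4 * k - 1)) := by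
        have h5 : ((i.toNat : ℕ) : ℤ) - (((-i).toNat : ℕ) : ℤ) = i := by omega
        have h6 := congrArg (fun z : ℤ => (z : ZMod (4 * k - 1))) h5
        push_cast at h6
        exact h6
      push_cast
      rw [← h4]
      ring

end Pool.Agent.TA.V
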