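import Pool.Agent.Lib_helper47.TA.F.KN1
import Pool.Agent.Lib_helper47.TA.F2.V7

/-!
# Project TA, second part: the residue classes form an arithmetic progression
-/

set_option autoImplicit false

namespace Pool.Agent.TA

open Pool.Agent.HOM
open scoped Pointwise

/-- `J` contains the classes of `i d`, `|i| < k`, for some `d` prime to `4 k - 1`. -/
def Prog (k : ℕ) (J : Finset (ZMod (4 * k - 1))) : Prop :=
  ∃ d : ℤ, IsCoprime d (4 * (k : ℤ) - 1) ∧
    ∀ n : ℤ, (∃ i : ℤ, |i| < k ∧ (4 * (k : ℤ) - 1) ∣ n - i * d) → (n : ZMod (4 * k - 1)) ∈ J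

theorem finite_zmod2 (W : ℕ) (hW : 0 < W) (X : Finset (ZMod W)) (h1 : W < 4 * X.card)
    (h2 : 2 * (X - X).card < W) : ∃ (k : ℕ) (J : Finset (ZMod (4 * k - 1))), 0 < k ∧
      Prog k J ∧ X.card * (4 * k - 1) ≤ k * W ∧
      ∀ n : ℤ, (n : ZMod (4 * k - 1)) ∈ J → (n : ZMod W) ∈ X - X := by
  have : NeZero W := ⟨hW.ne'⟩
  have hcW : Fintype.card (ZMod W) = W := ZMod.card W
  obtain ⟨H, k, hk, hcard, hper, hdiff, hXk⟩ := finite_kneser X (by rw [hcW]; exact h1)
    (by rw [hcW]; exact h2)
  have hkey : Prog k ((X - X).image fun x : ZMod W => (ZMod.cast x : ZMod (4 * k - 1))) ∧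
      ∀ n : ℤ, (n : ZMod (4 * k - 1)) ∈
        ((X - X).image fun x : ZMod W => (ZMod.cast x : ZMod (4 * k - 1))) →
        (n : ZMod W) ∈ X - X := by
    obtain ⟨N, hN⟩ : ∃ N : ℕ, N = 4 * k - 1 := ⟨_, rfl⟩
    have hNpos : 0 < N := by omega
    have : NeZero N := ⟨hNpos.ne'⟩
    have : NeZero (4 * k - 1) := ⟨by omega⟩
    set h : ℕ := Nat.card H with hh
    rw [hcW, ← hN] at hcard
    have hdvd : N ∣ W := ⟨h, hcard⟩
    have hdvd' : 4 * k - 1 ∣ W := hN ▸ hdvd
    let f : ZMod W →+ ZMod (4 * k - 1) := (ZMod.castHom hdvd' (ZMod (4 * k - 1))).toAddMonoidHom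
    have hfc : ∀ x : ZMod W, f x = (ZMod.cast x : ZMod (4 * k - 1)) := fun x => rfl
    have hf : ∀ m : ℤ, f (m : ZMod W) = (m : ZMod (4 * k - 1)) :=
      fun m => map_intCast (ZMod.castHom hdvd' _) m
    have hidx : H.index = N := by
      have h3 := H.card_mul_index
      rw [Nat.card_eq_fintype_card (α := ZMod W), hcW, ← hh] at h3
      have hpos : 0 < h := Nat.card_pos
      exact Nat.eq_of_mul_eq_mul_left hpos (h3.trans (hcard.trans (mul_comm N h)))
    have hmul : ∀ y : ZMod W, N • y ∈ H := by
      intro y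
      rw [← hidx]
      exact H.nsmul_index_mem y
    have hker : ∀ y : ZMod W, f y = 0 → y ∈ H := by
      intro y hy
      obtain ⟨m, rfl⟩ := ZMod.intCast_surjective y
      rw [hf, ZMod.intCast_zmod_eq_zero_iff_dvd] at hy
      obtain ⟨t, rfl⟩ := hy
      have h3 : ((((4 * k - 1 : ℕ) : ℤ) * t : ℤ) : ZMod W) = N • (t : ZMod W) := by
        rw [hN]
        push_cast
        rw [nsmul_eq_mul]
      rw [h3]
      exact hmul _
    set KF : Finset (ZMod W) := Finset.univ.filter fun y => f y = 0 with hKF
    have hKFcard : KF.card = h := by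
      have h3 := f.ker.card_mul_index
      have hsurj : Function.Surjective f := by
        intro y
        obtain ⟨m, rfl⟩ := ZMod.intCast_surjective y
        exact ⟨m, hf m⟩
      have h4 : f.ker.index = N := by
        rw [AddSubgroup.index_ker, AddMonoidHom.range_eq_top.mpr hsurj,
          Nat.card_congr AddSubgroup.topEquiv.toEquiv, Nat.card_eq_fintype_card, ZMod.card, hN]
      rw [h4, Nat.card_eq_fintype_card (α := ZMod W), hcW] at h3
      have h5 : Nat.card f.ker = h :=
        Nat.eq_of_mul_eq_mul_right hNpos (h3.trans (hcard.trans (mul_comm N h)))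
      rw [← h5, ← Nat.card_eq_finsetCard KF]
      exact Nat.card_congr (Equiv.subtypeEquivRight fun y => by simp [hKF, AddMonoidHom.mem_ker])
    have hhpos : 0 < h := Nat.card_pos
    have hJ : ((X - X).image fun x : ZMod W => (ZMod.cast x : ZMod (4 * k - 1))) =
        X.image f - X.image f := by
      have h3 : ((X - X).image fun x : ZMod W => (ZMod.cast x : ZMod (4 * k - 1))) =
          (X - X).image f := rfl
      rw [h3]
      ext y
      simp only [Finset.mem_image, Finset.mem_sub]
      constructor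
      · rintro ⟨_, ⟨a, ha, b, hb, rfl⟩, rfl⟩
        exact ⟨f a, ⟨a, ha, rfl⟩, f b, ⟨b, hb, rfl⟩, by rw [map_sub]⟩
      · rintro ⟨_, ⟨a, ha, rfl⟩, _, ⟨b, hb, rfl⟩, rfl⟩
        exact ⟨a - b, ⟨a, ha, b, hb, rfl⟩, by rw [map_sub]⟩
    have hJcard : (X.image f - X.image f).card = 2 * k - 1 := by
      have h3 : ((X - X).image f).card * h = (2 * k - 1) * h := by
        rw [← hdiff, Finset.card_eq_sum_card_image f (X - X)]
        symm
        apply Finset.sum_const_nat
        intro j hj
        obtain ⟨r, hr, rfl⟩ := Finset.mem_image.mp hj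
        have h3 : ((X - X).filter fun x => f x = f r) = KF.image fun g => r + g := by
          ext x
          simp only [Finset.mem_filter, Finset.mem_image, hKF, Finset.mem_univ, true_and]
          constructor
          · rintro ⟨_, hx⟩
            exact ⟨x - r, by rw [map_sub, hx, sub_self], by abel⟩
          · rintro ⟨g, hg, rfl⟩
            exact ⟨hper r hr g (hker g hg), by rw [map_add, hg, add_zero]⟩
        rw [h3, Finset.card_image_of_injective _ (add_right_injective r), hKFcard]
      rw [← hJ]
      exact Nat.eq_of_mul_eq_mul_right hhpos h3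
    -- the image of `X` has at least `k` elements
    have hS : k ≤ (X.image f).card := by
      have h3 : X.card ≤ (X.image f).card * h := by
        rw [Finset.card_eq_sum_card_image f X]
        refine (Finset.sum_le_card_nsmul _ _ h fun j hj => ?_).trans (by rw [smul_eq_mul])
        obtain ⟨r, hr, rfl⟩ := Finset.mem_image.mp hj
        rw [← hKFcard, ← Finset.card_image_of_injective KF (add_right_injective r)]
        refine Finset.card_le_card fun x hx => ?_
        rw [Finset.mem_filter] at hx
        exact Finset.mem_image.mpr ⟨x - r, by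
          rw [hKF, Finset.mem_filter]
          exact ⟨Finset.mem_univ _, by rw [map_sub, hx.2, sub_self]⟩, by simp⟩
      have h4 : N * h < 4 * ((X.image f).card * h) := by
        rw [← hcard]
        exact lt_of_lt_of_le h1 (Nat.mul_le_mul_left 4 h3)
      have h5 : N < 4 * (X.image f).card := by
        by_contra h6
        push Not at h6
        have h7 := Nat.mul_le_mul_right h h6
        rw [mul_assoc] at h7
        omega
      omega
    have hS' := V.zmod_card k hk (X.image f) hS hJcard
    obtain ⟨d, hd, hrun⟩ := V.zmod_run k hk (X.image f) hS' hJcard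
    refine ⟨⟨d, hd, fun n hn => ?_⟩, ?_⟩
    · rw [hJ]
      exact hrun n hn
    · intro n hn
      have hn' : (n : ZMod (4 * k - 1)) ∈ (X - X).image f := hn
      obtain ⟨r, hr, hrn⟩ := Finset.mem_image.mp hn'
      obtain ⟨m, rfl⟩ := ZMod.intCast_surjective r
      rw [hf] at hrn
      have h3 : ((n - m : ℤ) : ZMod (4 * k - 1)) = 0 := by
        push_cast
        rw [hrn, sub_self]
      have h4 := hker ((n - m : ℤ) : ZMod W) (by rw [hf, h3])
      have h5 := hper _ hr _ h4
      have h6 : (m : ZMod W) + ((n - m : ℤ) : ZMod W) = (n : ZMod W) := by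
        push_cast
        ring
      rwa [h6] at h5
  refine ⟨k, _, hk, hkey.1, ?_, hkey.2⟩
  rw [hcW] at hcard
  have h5 : k * Nat.card H * (4 * k - 1) = k * ((4 * k - 1) * Nat.card H) := by ring
  exact (Nat.mul_le_mul_right (4 * k - 1) hXk).trans
    (h5.trans (congrArg (fun z => k * z) hcard.symm)).le

end Pool.Agent.TA
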