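import Pool.Agent.Lib_helper47.TA.V.Defs
import Pool.Agent.Lib_helper30.Kneser.Kneser

/-!
# Project TA, block V1: atoms
-/

set_option autoImplicit false

namespace Pool.Agent.TA.V

open scoped Pointwise

section all
variable {G : Type*} [AddCommGroup G] [Fintype G] [DecidableEq G]

theorem atom_exists (S : Finset G) (h : ∃ A, Adm S A) : ∃ A, Atom S A := by
  classical
  set N := Fintype.card G with hN
  have hc : ∀ A : Finset G, A.card ≤ N := fun A => Finset.card_le_univ A
  obtain ⟨A0, hA0⟩ := h
  obtain ⟨A, hA, hmin⟩ := Finset.exists_min_image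
    (Finset.univ.filter fun A : Finset G => Adm S A)
    (fun A => ((A - S).card + (N - A.card)) * (N + 1) + A.card)
    ⟨A0, by rw [Finset.mem_filter]; exact ⟨Finset.mem_univ _, hA0⟩⟩
  rw [Finset.mem_filter] at hA
  have key : ∀ B, Adm S B → ((A - S).card + (N - A.card)) * (N + 1) + A.card ≤
      ((B - S).card + (N - B.card)) * (N + 1) + B.card :=
    fun B hB => hmin B (by rw [Finset.mem_filter]; exact ⟨Finset.mem_univ _, hB⟩)
  have key2 : ∀ B, Adm S B → (A - S).card + (N - A.card) ≤ (B - S).card + (N - B.card) := by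
    intro B hB
    by_contra hlt
    push Not at hlt
    have h1 := key B hB
    have h2 : ((B - S).card + (N - B.card) + 1) * (N + 1) ≤
        ((A - S).card + (N - A.card)) * (N + 1) := Nat.mul_le_mul_right _ hlt
    have h3 := hc B
    rw [Nat.add_mul _ 1] at h2
    omega
  refine ⟨A, hA.2, fun B hB => ?_, fun B hB he => ?_⟩
  · have h1 := key2 B hB
    have h2 := hc A
    have h3 := hc B
    omega
  · have h1 := key B hB
    have h2 := hc A
    have h3 := hc B
    have h4 : (A - S).card + (N - A.card) = (B - S).card + (N - B.card) := by omega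
    rw [h4] at h1
    omega

theorem atom_dual (S A : Finset G) (h : Atom S A) :
    A.card + (A - S).card ≤ Fintype.card G := by
  classical
  have hadm := h.adm
  set A' : Finset G := (Finset.univ \ (A - S)).image (fun x => -x) with hA'
  have hcard : A'.card + (A - S).card = Fintype.card G := by
    rw [hA', Finset.card_image_of_injective _ neg_injective,
      Finset.card_sdiff_add_card_eq_card (Finset.subset_univ _), Finset.card_univ]
  have hmem : ∀ x, x ∈ A' → -x ∉ A - S := by
    intro x hx
    rw [hA', Finset.mem_image] at hx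
    obtain ⟨y, hy, rfl⟩ := hx
    rw [neg_neg]
    exact (Finset.mem_sdiff.1 hy).2
  have hdis : Disjoint (A' - S) (A.image fun x => -x) := by
    rw [Finset.disjoint_left]
    intro x hx hx'
    obtain ⟨y, hy, s, hs, rfl⟩ := Finset.mem_sub.1 hx
    obtain ⟨a, ha, hax⟩ := Finset.mem_image.1 hx'
    apply hmem y hy
    have e : -y = a - s := by
      have h0 : y = -a + s := by rw [hax, sub_add_cancel]
      rw [h0]
      abel
    rw [e]
    exact Finset.sub_mem_sub ha hs
  have hc2 : (A' - S).card + A.card ≤ Fintype.card G := by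
    have h1 := Finset.card_union_of_disjoint hdis
    rw [Finset.card_image_of_injective _ neg_injective] at h1
    rw [← h1]
    exact Finset.card_le_univ _
  have hA1 : Adm S A' := by
    refine ⟨?_, ?_⟩
    · have := hadm.2
      omega
    · have := hadm.1
      omega
  have h1 := h.min A' hA1
  have h2 := h.small A' hA1 (by omega)
  omega

omit [Fintype G] in
/-- translates and differences -/
theorem v1_tr_sub (S A : Finset G) (t : G) : tr t A - S = tr t (A - S) := by
  ext x
  rw [mem_tr, Finset.mem_sub, Finset.mem_sub]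
  constructor
  · rintro ⟨y, hy, s, hs, rfl⟩
    refine ⟨y - t, mem_tr.1 hy, s, hs, by abel⟩
  · rintro ⟨y, hy, s, hs, he⟩
    refine ⟨y + t, mem_tr.2 (by rwa [add_sub_cancel_right]), s, hs, ?_⟩
    have : x = y - s + t := by rw [he, sub_add_cancel]
    rw [this]
    abel

theorem atom_inter (S A : Finset G) (h : Atom S A) (t : G) (ht : 2 ≤ (A ∩ tr t A).card) :
    tr t A = A := by
  have hadm := h.adm
  have hct := card_tr t A
  have hcs : (tr t A - S).card = (A - S).card := by rw [v1_tr_sub, card_tr]
  have hIV : (A ∩ tr t A).card + (A ∪ tr t A).card = 2 * A.card := by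
    rw [add_comm, Finset.card_union_add_card_inter, hct, two_mul]
  have hsub : ((A ∩ tr t A) - S).card + ((A ∪ tr t A) - S).card ≤ 2 * (A - S).card := by
    have h1 : (A ∪ tr t A) - S = (A - S) ∪ (tr t A - S) := Finset.union_sub
    have h2 : (A ∩ tr t A) - S ⊆ (A - S) ∩ (tr t A - S) := Finset.inter_sub_subset
    have h3 := Finset.card_union_add_card_inter (A - S) (tr t A - S)
    have h4 := Finset.card_le_card h2
    rw [h1]
    omega
  have hI1 : ((A ∩ tr t A) - S).card ≤ (A - S).card :=
    Finset.card_le_card (Finset.sub_subset_sub_right Finset.inter_subset_left)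
  have hI : Adm S (A ∩ tr t A) := ⟨ht, by have := hadm.2; omega⟩
  have hmI := h.min _ hI
  have hd := atom_dual S A h
  have hV2 : A.card ≤ (A ∪ tr t A).card := Finset.card_le_card Finset.subset_union_left
  by_cases hV : ((A ∪ tr t A) - S).card + 2 ≤ Fintype.card G
  · have hVa : Adm S (A ∪ tr t A) := ⟨by have := hadm.1; omega, hV⟩
    have hmV := h.min _ hVa
    have hs := h.small _ hI (by omega)
    have h1 : A ∩ tr t A = A := Finset.eq_of_subset_of_card_le Finset.inter_subset_left hs
    have h2 : A ⊆ tr t A := Finset.inter_eq_left.1 h1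
    exact (Finset.eq_of_subset_of_card_le h2 hct.le).symm
  · exfalso
    omega

/-- the stabiliser of a set -/
def v1_stab (A : Finset G) : AddSubgroup G where
  carrier := {p | ∀ x, x + p ∈ A ↔ x ∈ A}
  zero_mem' := fun x => by rw [add_zero]
  add_mem' := fun {p q} hp hq x => by
    rw [← add_assoc]
    exact (hq (x + p)).trans (hp x)
  neg_mem' := fun {p} hp x => by
    have := hp (x + -p)
    rw [neg_add_cancel_right] at this
    exact this.symm

omit [Fintype G] [DecidableEq G] in
theorem v1_mem_stab {A : Finset G} {p : G} : p ∈ v1_stab A ↔ ∀ x, x + p ∈ A ↔ x ∈ A := Iff.rfl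

omit [Fintype G] in
theorem v1_stab_of_tr {A : Finset G} {t : G} (h : tr t A = A) : t ∈ v1_stab A := by
  rw [v1_mem_stab]
  intro x
  have h1 : x + t ∈ tr t A ↔ x ∈ A := by rw [mem_tr, add_sub_cancel_right]
  rwa [h] at h1

theorem atom_or (S A : Finset G) (h : Atom S A) :
    Sid A ∨ ∃ (P : AddSubgroup G) (a : G), P ≠ ⊥ ∧ ∀ x, x ∈ A ↔ x - a ∈ P := by
  by_cases hP : v1_stab A = ⊥
  · left
    intro t ht
    by_contra hlt
    push Not at hlt
    have h1 := v1_stab_of_tr (atom_inter S A h t hlt)
    rw [hP, AddSubgroup.mem_bot] at h1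
    exact ht h1
  · right
    have hA : A.Nonempty := by
      rw [← Finset.card_pos]
      have := h.adm.1
      omega
    obtain ⟨a, ha⟩ := hA
    refine ⟨v1_stab A, a, hP, fun x => ⟨fun hx => ?_, fun hx => ?_⟩⟩
    · by_contra hn
      obtain ⟨⟨p, hp⟩, hp1⟩ := AddSubgroup.ne_bot_iff_exists_ne_zero.1 hP
      have hp0 : p ≠ 0 := fun h0 => hp1 (Subtype.ext h0)
      have h2 : 2 ≤ (A ∩ tr (x - a) A).card := by
        have h3 : ({x, x + p} : Finset G) ⊆ A ∩ tr (x - a) A := by
          intro y hy
          rw [Finset.mem_insert, Finset.mem_singleton] at hy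
          rw [Finset.mem_inter, mem_tr]
          rcases hy with rfl | rfl
          · exact ⟨hx, by rwa [sub_sub_cancel]⟩
          · refine ⟨(hp x).2 hx, ?_⟩
            have e : x + p - (x - a) = a + p := by abel
            rw [e]
            exact (hp a).2 ha
        have h4 : ({x, x + p} : Finset G).card = 2 := by
          rw [Finset.card_pair]
          intro h5
          exact hp0 (left_eq_add.1 h5)
        rw [← h4]
        exact Finset.card_le_card h3
      exact hn (v1_stab_of_tr (atom_inter S A h _ h2))
    · have h1 := (hx a).2 ha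
      rwa [add_sub_cancel] at h1

end all

end Pool.Agent.TA.V

example : type_of% @Pool.Agent.TA.V.atom_exists := @Pool.Agent.TA.V.atom_exists
example : type_of% @Pool.Agent.TA.V.atom_dual := @Pool.Agent.TA.V.atom_dual
example : type_of% @Pool.Agent.TA.V.atom_inter := @Pool.Agent.TA.V.atom_inter
example : type_of% @Pool.Agent.TA.V.atom_or := @Pool.Agent.TA.V.atom_or
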