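import Pool.Agent.Lib_helper47.TA.F2.V1

set_option autoImplicit false

namespace Pool.Agent.TA.V

open scoped Pointwise

section all
variable {G : Type*} [AddCommGroup G] [Fintype G] [DecidableEq G]

theorem sub_card_comm (X Y : Finset G) : (X - Y).card = (Y - X).card := by
  rw [← neg_sub Y X, Finset.card_neg]

omit [Fintype G] in
theorem v2_inter (X : Finset G) (hX : Sid X) (a b : G) (hab : a ≠ b) :
    (tr a X ∩ tr b X).card ≤ 1 := by
  have h : tr a X ∩ tr b X = tr a (X ∩ tr (b - a) X) := by
    ext x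
    simp only [Finset.mem_inter, mem_tr]
    rw [sub_sub, add_sub_cancel]
  rw [h, card_tr]
  exact hX _ (sub_ne_zero.mpr (Ne.symm hab))

omit [Fintype G] in
theorem v2_sub (X Y : Finset G) {y : G} (hy : y ∈ Y) : tr (-y) X ⊆ X - Y := by
  intro x hx
  rw [mem_tr] at hx
  have : x = (x - -y) - y := by abel
  rw [this]
  exact Finset.sub_mem_sub hx hy

theorem sub_card_two (X Y : Finset G) (hX : Sid X) (hY : 2 ≤ Y.card) :
    2 * X.card ≤ (X - Y).card + 1 := by
  obtain ⟨y, hy, z, hz, hyz⟩ := Finset.one_lt_card.mp hY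
  have h1 := Finset.card_union_add_card_inter (tr (-y) X) (tr (-z) X)
  have h2 := v2_inter X hX (-y) (-z) (fun h => hyz (neg_injective h))
  have h3 : (tr (-y) X ∪ tr (-z) X).card ≤ (X - Y).card :=
    Finset.card_le_card (Finset.union_subset (v2_sub X Y hy) (v2_sub X Y hz))
  rw [card_tr, card_tr] at h1
  omega

theorem sub_card_three (X Y : Finset G) (hX : Sid X) (hY : 3 ≤ Y.card) :
    3 * X.card ≤ (X - Y).card + 3 := by
  obtain ⟨y, z, w, hy, hz, hw, hyz, hyw, hzw⟩ := Finset.two_lt_card_iff.mp hY
  have h1 := Finset.card_union_add_card_inter (tr (-y) X) (tr (-z) X)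
  have h2 := Finset.card_union_add_card_inter (tr (-y) X ∪ tr (-z) X) (tr (-w) X)
  have h3 := v2_inter X hX (-y) (-z) (fun h => hyz (neg_injective h))
  have h4 := v2_inter X hX (-y) (-w) (fun h => hyw (neg_injective h))
  have h5 := v2_inter X hX (-z) (-w) (fun h => hzw (neg_injective h))
  have h6 : ((tr (-y) X ∪ tr (-z) X) ∩ tr (-w) X).card ≤
      (tr (-y) X ∩ tr (-w) X).card + (tr (-z) X ∩ tr (-w) X).card := by
    rw [Finset.union_inter_distrib_right]
    exact Finset.card_union_le _ _
  have h7 : ((tr (-y) X ∪ tr (-z) X) ∪ tr (-w) X).card ≤ (X - Y).card :=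
    Finset.card_le_card (Finset.union_subset
      (Finset.union_subset (v2_sub X Y hy) (v2_sub X Y hz)) (v2_sub X Y hw))
  rw [card_tr, card_tr] at h1
  rw [card_tr] at h2
  omega

theorem v2_coset (P : AddSubgroup G) (A : Finset G) {a b : G} (ha : a ∈ A) (hb : b ∈ A)
    (hab : a - b ∉ P) : 2 * Nat.card P ≤ (sat P A).card := by
  classical
  have key : ∀ c : G, (Finset.univ.filter fun x : G => x - c ∈ P).card = Nat.card P := by
    intro c
    rw [Nat.card_eq_fintype_card, Fintype.card_subtype]
    refine Finset.card_bij (fun x _ => x - c) ?_ ?_ ?_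
    · intro x hx
      simpa using hx
    · intro x _ y _ h
      exact sub_left_injective h
    · intro x hx
      refine ⟨x + c, ?_, ?_⟩
      · simpa using hx
      · simp
  have hd : Disjoint (Finset.univ.filter fun x : G => x - a ∈ P)
      (Finset.univ.filter fun x : G => x - b ∈ P) := by
    rw [Finset.disjoint_left]
    intro x hx hy
    rw [Finset.mem_filter] at hx hy
    apply hab
    have := P.sub_mem hy.2 hx.2
    have h2 : x - b - (x - a) = a - b := by abel
    rwa [h2] at this
  have h1 := Finset.card_union_of_disjoint hd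
  rw [key, key] at h1
  have h2 : (Finset.univ.filter fun x : G => x - a ∈ P) ∪
      (Finset.univ.filter fun x : G => x - b ∈ P) ⊆ sat P A := by
    intro x hx
    rw [Finset.mem_union, Finset.mem_filter, Finset.mem_filter] at hx
    rw [mem_sat]
    rcases hx with hx | hx
    · exact ⟨a, ha, hx.2⟩
    · exact ⟨b, hb, hx.2⟩
  have h3 := Finset.card_le_card h2
  omega

theorem sid_sat (P : AddSubgroup G) (hP : P ≠ ⊥) (A : Finset G) (hA : Sid A)
    (h2 : ∃ a ∈ A, ∃ b ∈ A, a - b ∉ P) : A.card + Nat.card P ≤ (sat P A).card := by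
  obtain ⟨a, ha, b, hb, hab⟩ := h2
  have h1 := v2_coset P A ha hb hab
  obtain ⟨t, htP, ht0⟩ := (AddSubgroup.ne_bot_iff_exists_ne_zero.mp hP).elim
    (fun t ht => (⟨t.1, t.2, fun h => ht (Subtype.ext h)⟩ : ∃ t : G, t ∈ P ∧ t ≠ 0))
  have h3 := Finset.card_union_add_card_inter A (tr t A)
  have h4 := hA t ht0
  have h5 : A ∪ tr t A ⊆ sat P A := by
    intro x hx
    rw [Finset.mem_union, mem_tr] at hx
    rw [mem_sat]
    rcases hx with hx | hx
    · exact ⟨x, hx, by simp [P.zero_mem]⟩
    · exact ⟨x - t, hx, by simpa using htP⟩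
  have h6 := Finset.card_le_card h5
  rw [card_tr] at h3
  omega

end all

example : type_of% @sub_card_comm := @sub_card_comm
example : type_of% @sub_card_two := @sub_card_two
example : type_of% @sub_card_three := @sub_card_three
example : type_of% @sid_sat := @sid_sat

end Pool.Agent.TA.V
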