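import Pool.Agent.Lib_helper47.TA.F2.V2

set_option autoImplicit false

namespace Pool.Agent.TA.V

open scoped Pointwise

section all
variable {G : Type*} [AddCommGroup G] [Fintype G] [DecidableEq G]

omit [DecidableEq G] in
theorem v3_fiber (P : AddSubgroup G) (u : G) (T : Finset G)
    (hT : ∀ x, x ∈ T ↔ x - u ∈ P) : T.card = Nat.card P := by
  classical
  rw [Nat.card_eq_fintype_card, ← Fintype.card_coe T]
  refine Fintype.card_congr ⟨fun x => ⟨x.1 - u, (hT _).1 x.2⟩,
    fun p => ⟨p.1 + u, (hT _).2 (by simp)⟩, fun x => ?_, fun p => ?_⟩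
  · ext; simp
  · ext; simp

theorem v3_dvd (P : AddSubgroup G) (T : Finset G) (hT : ∀ r ∈ T, ∀ p ∈ P, r + p ∈ T) :
    Nat.card P ∣ T.card := by
  classical
  rw [Finset.card_eq_sum_card_image (fun x : G => (QuotientAddGroup.mk x : G ⧸ P)) T]
  refine Finset.dvd_sum fun q hq => ?_
  obtain ⟨r, hr, rfl⟩ := Finset.mem_image.1 hq
  rw [v3_fiber P r]
  intro x
  rw [Finset.mem_filter]
  constructor
  · rintro ⟨_, h⟩
    have h1 : -r + x ∈ P := QuotientAddGroup.eq.1 h.symm
    have h2 : x - r = -r + x := by abel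
    rw [h2]; exact h1
  · intro h
    refine ⟨?_, ?_⟩
    · have := hT r hr (x - r) h
      rwa [add_sub_cancel] at this
    · refine (QuotientAddGroup.eq.2 ?_).symm
      have h2 : -r + x = x - r := by abel
      rw [h2]; exact h

theorem ext_aper (k : ℕ) (S : Finset G) (h : Ext k S) (P : AddSubgroup G) (hP : P ≠ ⊥) :
    ∃ r ∈ S - S, ∃ p ∈ P, r + p ∉ S - S := by
  classical
  by_contra hcon
  push Not at hcon
  have h1 : Nat.card P ∣ (S - S).card := v3_dvd P (S - S) hcon
  have h2 : Nat.card P ∣ Fintype.card G := by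
    rw [← Nat.card_eq_fintype_card]
    exact AddSubgroup.card_addSubgroup_dvd_card P
  have h3 := h.cardG
  have h4 := h.cardR
  have h5 : Fintype.card G = 2 * (S - S).card + 1 := by omega
  have h6 : Nat.card P ∣ 1 := by
    rw [h5] at h2
    exact (Nat.dvd_add_right (Dvd.dvd.mul_left h1 2)).1 h2
  have h7 : Nat.card P = 1 := Nat.dvd_one.1 h6
  exact hP (AddSubgroup.eq_bot_of_card_eq P h7)

/-- the part of `S` in the coset of `u` -/
theorem v3_two (S : Finset G) (P : AddSubgroup G)
    (h1 : (sat P S).card < S.card + Nat.card P) (u v : G) (hu : u ∈ S) (hv : v ∈ S)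
    (huv : u - v ∉ P) (A B : Finset G) (hA : ∀ x, x ∈ A ↔ x ∈ S ∧ x - u ∈ P)
    (hB : ∀ x, x ∈ B ↔ x ∈ S ∧ x - v ∈ P) : Nat.card P + 1 ≤ A.card + B.card := by
  classical
  let U : Finset G := Finset.univ.filter fun x => x - u ∈ P
  let V : Finset G := Finset.univ.filter fun x => x - v ∈ P
  have hU : U.card = Nat.card P := v3_fiber P u U (fun x => by simp [U])
  have hV : V.card = Nat.card P := v3_fiber P v V (fun x => by simp [V])
  have hUV : Disjoint U V := by
    rw [Finset.disjoint_left]
    intro x hx hx'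
    simp only [U, V, Finset.mem_filter, Finset.mem_univ, true_and] at hx hx'
    apply huv
    have : u - v = (x - v) - (x - u) := by abel
    rw [this]; exact P.sub_mem hx' hx
  let R : Finset G := S \ (U ∪ V)
  have hR : S.card = R.card + (A.card + B.card) := by
    have hAB : Disjoint A B := by
      rw [Finset.disjoint_left]
      intro x hx hx'
      have hx1 := ((hA x).1 hx).2
      have hx2 := ((hB x).1 hx').2
      apply huv
      have : u - v = (x - v) - (x - u) := by abel
      rw [this]; exact P.sub_mem hx2 hx1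
    rw [← Finset.card_union_of_disjoint hAB]
    have hd : Disjoint R (A ∪ B) := by
      rw [Finset.disjoint_left]
      intro x hx hx'
      simp only [R, U, V, Finset.mem_sdiff, Finset.mem_union, Finset.mem_filter, Finset.mem_univ,
        true_and, not_or] at hx
      rcases Finset.mem_union.1 hx' with h | h
      · exact hx.2.1 ((hA x).1 h).2
      · exact hx.2.2 ((hB x).1 h).2
    rw [← Finset.card_union_of_disjoint hd]
    congr 1
    ext x
    simp only [R, U, V, Finset.mem_sdiff, Finset.mem_union, Finset.mem_filter, Finset.mem_univ,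
      true_and, not_or, hA, hB]
    tauto
  have hsub : R ∪ (U ∪ V) ⊆ sat P S := by
    intro x hx
    rw [mem_sat]
    rcases Finset.mem_union.1 hx with h | h
    · exact ⟨x, (Finset.mem_sdiff.1 h).1, by simp⟩
    · rcases Finset.mem_union.1 h with h | h
      · exact ⟨u, hu, by simpa [U] using h⟩
      · exact ⟨v, hv, by simpa [V] using h⟩
  have hc := Finset.card_le_card hsub
  have hRd : Disjoint R (U ∪ V) := Finset.sdiff_disjoint
  rw [Finset.card_union_of_disjoint hRd, Finset.card_union_of_disjoint hUV] at hc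
  omega

/-- two large subsets of two cosets -/
theorem v3_meet (P : AddSubgroup G) (u v t : G) (A B : Finset G) (hA : ∀ x ∈ A, x - u ∈ P)
    (hB : ∀ x ∈ B, x - v ∈ P) (ht : v + t - u ∈ P) (hc : Nat.card P + 1 ≤ A.card + B.card) :
    ∃ a ∈ A, ∃ b ∈ B, a - b = t := by
  classical
  by_contra hcon
  push Not at hcon
  let U : Finset G := Finset.univ.filter fun x => x - u ∈ P
  have hU : U.card = Nat.card P := v3_fiber P u U (fun x => by simp [U])
  have hd : Disjoint A (tr t B) := by
    rw [Finset.disjoint_left]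
    intro x hx hx'
    rw [mem_tr] at hx'
    exact hcon x hx (x - t) hx' (by abel)
  have hsub : A ∪ tr t B ⊆ U := by
    intro x hx
    simp only [U, Finset.mem_filter, Finset.mem_univ, true_and]
    rcases Finset.mem_union.1 hx with h | h
    · exact hA x h
    · rw [mem_tr] at h
      have h1 := hB _ h
      have : x - u = (x - t - v) + (v + t - u) := by abel
      rw [this]; exact P.add_mem h1 ht
  have h2 := Finset.card_le_card hsub
  rw [Finset.card_union_of_disjoint hd, card_tr, hU] at h2
  omega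

theorem near_periodic (S : Finset G) (P : AddSubgroup G)
    (h1 : (sat P S).card < S.card + Nat.card P) (h2 : ∃ s ∈ S, ∃ s' ∈ S, s - s' ∉ P) :
    ∀ r ∈ S - S, ∀ p ∈ P, r + p ∈ S - S := by
  classical
  intro r hr p hp
  obtain ⟨s, hs, s', hs', rfl⟩ := Finset.mem_sub.1 hr
  have key : ∀ u v : G, ∀ A B : Finset G, (∀ x, x ∈ A ↔ x ∈ S ∧ x - u ∈ P) →
      (∀ x, x ∈ B ↔ x ∈ S ∧ x - v ∈ P) → v + (s - s' + p) - u ∈ P →
      Nat.card P + 1 ≤ A.card + B.card → s - s' + p ∈ S - S := by
    intro u v A B hA hB ht hc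
    obtain ⟨a, ha, b, hb, hab⟩ := v3_meet P u v (s - s' + p) A B (fun x hx => ((hA x).1 hx).2)
      (fun x hx => ((hB x).1 hx).2) ht hc
    rw [← hab]
    exact Finset.sub_mem_sub ((hA a).1 ha).1 ((hB b).1 hb).1
  by_cases hss : s - s' ∈ P
  · obtain ⟨a, ha, b, hb, hab⟩ := h2
    let A : Finset G := S.filter fun x => x - a ∈ P
    let B : Finset G := S.filter fun x => x - b ∈ P
    have hA : ∀ x, x ∈ A ↔ x ∈ S ∧ x - a ∈ P := fun x => Finset.mem_filter
    have hB : ∀ x, x ∈ B ↔ x ∈ S ∧ x - b ∈ P := fun x => Finset.mem_filter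
    have h3 := v3_two S P h1 a b ha hb hab A B hA hB
    rcases le_total A.card B.card with h4 | h4
    · refine key b b B B hB hB ?_ (by omega)
      have : b + (s - s' + p) - b = s - s' + p := by abel
      rw [this]; exact P.add_mem hss hp
    · refine key a a A A hA hA ?_ (by omega)
      have : a + (s - s' + p) - a = s - s' + p := by abel
      rw [this]; exact P.add_mem hss hp
  · let A : Finset G := S.filter fun x => x - s ∈ P
    let B : Finset G := S.filter fun x => x - s' ∈ P
    have hA : ∀ x, x ∈ A ↔ x ∈ S ∧ x - s ∈ P := fun x => Finset.mem_filter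
    have hB : ∀ x, x ∈ B ↔ x ∈ S ∧ x - s' ∈ P := fun x => Finset.mem_filter
    have h3 := v3_two S P h1 s s' hs hs' hss A B hA hB
    refine key s s' A B hA hB ?_ h3
    have : s' + (s - s' + p) - s = p := by abel
    rw [this]; exact hp

theorem ext_one (k : ℕ) (S : Finset G) (h : Ext k S) (P : AddSubgroup G) (hP : P ≠ ⊤) :
    ∃ s ∈ S, ∃ s' ∈ S, s - s' ∉ P := by
  classical
  by_contra hcon
  push Not at hcon
  have hsub : S - S ⊆ Finset.univ.filter fun x => x ∈ P := by
    intro x hx
    obtain ⟨a, ha, b, hb, rfl⟩ := Finset.mem_sub.1 hx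
    simpa using hcon a ha b hb
  have hPc : (Finset.univ.filter fun x : G => x ∈ P).card = Nat.card P :=
    v3_fiber P 0 _ (fun x => by simp)
  have h1 := Finset.card_le_card hsub
  rw [hPc] at h1
  obtain ⟨m, hm⟩ : Nat.card P ∣ Fintype.card G := by
    rw [← Nat.card_eq_fintype_card]
    exact AddSubgroup.card_addSubgroup_dvd_card P
  have h3 := h.cardG
  have h4 := h.cardR
  have h5 := h.two
  have hm3 : m < 3 := by
    by_contra hm3
    push Not at hm3
    have : Nat.card P * 3 ≤ Nat.card P * m := Nat.mul_le_mul_left _ hm3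
    omega
  have hm1 : m = 1 := by
    interval_cases m
    · omega
    · rfl
    · omega
  rw [hm1, mul_one] at hm
  apply hP
  apply AddSubgroup.eq_top_of_card_eq
  rw [Nat.card_eq_fintype_card (α := G), hm]

end all

example : type_of% @Pool.Agent.TA.V.ext_aper := @Pool.Agent.TA.V.ext_aper
example : type_of% @Pool.Agent.TA.V.near_periodic := @Pool.Agent.TA.V.near_periodic
example : type_of% @Pool.Agent.TA.V.ext_one := @Pool.Agent.TA.V.ext_one

end Pool.Agent.TA.V
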