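import Pool.Agent.Lib_helper47.TA.F2.V3

/-!
# Project TA, block V4: Sidon sets in a proper coset
-/

set_option autoImplicit false
set_option linter.unusedSectionVars false

namespace Pool.Agent.TA.V

open scoped Pointwise

section all
variable {G : Type*} [AddCommGroup G] [Fintype G] [DecidableEq G]

theorem v4_card_coset (P : AddSubgroup G) (s : G) (C : Finset G) (hC : ∀ x, x ∈ C ↔ x - s ∈ P) :
    C.card = Nat.card P := by
  classical
  have h1 : Nat.card P = Nat.card C := by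
    refine Nat.card_congr ⟨fun p => ⟨(p : G) + s, ?_⟩, fun c => ⟨(c : G) - s, ?_⟩, ?_, ?_⟩
    · rw [hC, add_sub_cancel_right]
      exact p.2
    · exact (hC _).1 c.2
    · intro p
      ext
      simp
    · intro c
      ext
      simp
  rw [h1, Nat.card_eq_fintype_card, Fintype.card_coe]

theorem v4_filter (P : AddSubgroup G) (s : G) : ∃ C : Finset G, ∀ x, x ∈ C ↔ x - s ∈ P := by
  classical
  exact ⟨Finset.univ.filter fun x => x - s ∈ P, fun x => by simp⟩

theorem v4_card_le (P : AddSubgroup G) (A : Finset G) (a₀ : G) (h : ∀ a ∈ A, a - a₀ ∈ P) :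
    A.card ≤ Nat.card P := by
  obtain ⟨C, hC⟩ := v4_filter P a₀
  rw [← v4_card_coset P a₀ C hC]
  exact Finset.card_le_card fun a ha => (hC a).2 (h a ha)

theorem v4_sat_eq (H : AddSubgroup G) (T A : Finset G) (hT : (T : Set G) = H) :
    sat H A = A + T := by
  have hT' : ∀ x, x ∈ T ↔ x ∈ H := fun x => by
    rw [← Finset.mem_coe, hT]; rfl
  ext x
  rw [mem_sat, Finset.mem_add]
  constructor
  · rintro ⟨a, ha, h⟩
    exact ⟨a, ha, x - a, (hT' _).2 h, by abel⟩
  · rintro ⟨a, ha, t, ht, rfl⟩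
    exact ⟨a, ha, by rw [add_sub_cancel_left]; exact (hT' _).1 ht⟩

theorem v4_subset_add (H : AddSubgroup G) (T A : Finset G) (hT : (T : Set G) = H) :
    A ⊆ A + T := by
  intro a ha
  have : (0 : G) ∈ T := by
    rw [← Finset.mem_coe, hT]; exact H.zero_mem
  simpa using Finset.add_mem_add ha this

/-- case (2): Kneser -/
theorem v4_kneser (A S₁ : Finset G) (hA : Sid A) (hAne : A.Nonempty) (hS : S₁.Nonempty)
    (P₀ : AddSubgroup G) (hP₀ : P₀ = AddSubgroup.closure {x | ∃ a ∈ A, ∃ b ∈ A, a - b = x})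
    (hx : ∃ x ∈ A - S₁, ∃ p ∈ P₀, x + p ∉ A - S₁) :
    A.card + S₁.card ≤ (A - S₁).card + 1 := by
  obtain ⟨H, T, hT, h1, h2⟩ := Pool.Agent.Lib_helper30.Kneser.kneser_add A (-S₁) hAne
    (Finset.neg_nonempty_iff.2 hS)
  rw [← sub_eq_add_neg] at h1 h2
  have hT' : ∀ x, x ∈ T ↔ x ∈ H := fun x => by
    rw [← Finset.mem_coe, hT]; rfl
  have hTc : T.card = Nat.card H :=
    v4_card_coset H 0 T fun x => by rw [sub_zero]; exact hT' x
  have h3 : ∃ a ∈ A, ∃ b ∈ A, a - b ∉ H := by
    by_contra hno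
    push Not at hno
    obtain ⟨x, hx, p, hp, hxp⟩ := hx
    apply hxp
    rw [← h1]
    refine Finset.add_mem_add hx ((hT' p).2 ?_)
    have : P₀ ≤ H := by
      rw [hP₀, AddSubgroup.closure_le]
      rintro _ ⟨a, ha, b, hb, rfl⟩
      exact hno a ha b hb
    exact this hp
  have h4 : S₁.card ≤ (-S₁ + T).card := by
    rw [← Finset.card_neg S₁]
    exact Finset.card_le_card (v4_subset_add H T (-S₁) hT)
  by_cases hH : H = ⊥
  · have h5 : A.card ≤ (A + T).card := Finset.card_le_card (v4_subset_add H T A hT)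
    have h6 : T.card = 1 := by
      rw [hTc, hH]; simp
    omega
  · have h5 := sid_sat H hH A hA h3
    rw [v4_sat_eq H T A hT] at h5
    omega

theorem sid_coset (k : ℕ) (S : Finset G) (h : Ext k S) (A : Finset G) (hA : Sid A)
    (h3 : 3 ≤ A.card) (P : AddSubgroup G) (hP : P ≠ ⊤) (hAP : ∀ a ∈ A, ∀ b ∈ A, a - b ∈ P) :
    A.card + k ≤ (A - S).card := by
  classical
  by_contra hcon
  rw [not_le] at hcon
  obtain ⟨P₀, hP₀⟩ : ∃ P₀ : AddSubgroup G,
    P₀ = AddSubgroup.closure {x | ∃ a ∈ A, ∃ b ∈ A, a - b = x} := ⟨_, rfl⟩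
  have hmem : ∀ a ∈ A, ∀ b ∈ A, a - b ∈ P₀ := fun a ha b hb => by
    rw [hP₀]
    exact AddSubgroup.subset_closure ⟨a, ha, b, hb, rfl⟩
  have hle : P₀ ≤ P := by
    rw [hP₀, AddSubgroup.closure_le]
    rintro _ ⟨a, ha, b, hb, rfl⟩
    exact hAP a ha b hb
  have htop : P₀ ≠ ⊤ := fun h0 => hP (top_le_iff.1 (h0 ▸ hle))
  obtain ⟨a₀, ha₀, b₀, hb₀, hab⟩ := Finset.one_lt_card.1 (show 1 < A.card by omega)
  have hbot : P₀ ≠ ⊥ := by
    intro h0
    have := hmem a₀ ha₀ b₀ hb₀
    rw [h0, AddSubgroup.mem_bot, sub_eq_zero] at this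
    exact hab this
  have hAP₀ : A.card ≤ Nat.card P₀ := v4_card_le P₀ A a₀ fun a ha => hmem a ha a₀ ha₀
  suffices hs : (sat P₀ S).card < S.card + Nat.card P₀ by
    obtain ⟨r, hr, p, hp, hrp⟩ := ext_aper k S h P₀ hbot
    exact hrp (near_periodic S P₀ hs (ext_one k S h P₀ htop) r hr p hp)
  have hcS := h.cardS
  by_cases hinv : ∀ x ∈ A - S, ∀ p ∈ P₀, x + p ∈ A - S
  · -- (1)
    have h1 : (sat P₀ S).card ≤ (A - S).card := by
      refine Finset.card_le_card_of_injOn (fun y => a₀ - y) ?_ ?_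
      · intro y hy
        obtain ⟨s, hs, hys⟩ := mem_sat.1 (Finset.mem_coe.1 hy)
        have h2 := hinv (a₀ - s) (Finset.sub_mem_sub ha₀ hs) (-(y - s)) (P₀.neg_mem hys)
        have h3 : a₀ - s + -(y - s) = a₀ - y := by abel
        rw [h3] at h2
        exact Finset.mem_coe.2 h2
      · intro y _ z _ hyz
        exact sub_right_injective hyz
    omega
  · -- (2)
    push Not at hinv
    obtain ⟨x, hx, p, hp, hxp⟩ := hinv
    obtain ⟨a₁, ha₁, s₀, hs₀, rfl⟩ := Finset.mem_sub.1 hx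
    obtain ⟨S₁, hS₁⟩ : ∃ S₁ : Finset G, S₁ = S.filter fun s => s - s₀ ∈ P₀ := ⟨_, rfl⟩
    obtain ⟨S', hS'⟩ : ∃ S' : Finset G, S' = S.filter fun s => ¬ (s - s₀ ∈ P₀) := ⟨_, rfl⟩
    have hm1 : ∀ s, s ∈ S₁ ↔ s ∈ S ∧ s - s₀ ∈ P₀ := fun s => by rw [hS₁, Finset.mem_filter]
    have hm2 : ∀ s, s ∈ S' ↔ s ∈ S ∧ ¬ (s - s₀ ∈ P₀) := fun s => by rw [hS', Finset.mem_filter]
    have hcard : S₁.card + S'.card = S.card := by
      rw [hS₁, hS', Finset.card_filter_add_card_filter_not]
    have hs₁ : s₀ ∈ S₁ := (hm1 s₀).2 ⟨hs₀, by rw [sub_self]; exact P₀.zero_mem⟩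
    have hsub1 : A - S₁ ⊆ A - S := Finset.sub_subset_sub_left fun s hs => ((hm1 s).1 hs).1
    have hsub2 : A - S' ⊆ A - S := Finset.sub_subset_sub_left fun s hs => ((hm2 s).1 hs).1
    have hk := v4_kneser A S₁ hA ⟨a₀, ha₀⟩ ⟨s₀, hs₁⟩ P₀ hP₀
      ⟨a₁ - s₀, Finset.sub_mem_sub ha₁ hs₁, p, hp, fun hh => hxp (hsub1 hh)⟩
    have hdisj : Disjoint (A - S₁) (A - S') := by
      rw [Finset.disjoint_left]
      intro y hy1 hy2
      obtain ⟨a, ha, s, hs, rfl⟩ := Finset.mem_sub.1 hy1
      obtain ⟨b, hb, t, ht, hbt⟩ := Finset.mem_sub.1 hy2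
      apply ((hm2 t).1 ht).2
      have e1 : t - s₀ = (b - a) + (s - s₀) := by
        have : t = b - (a - s) := by rw [← hbt]; abel
        rw [this]; abel
      rw [e1]
      exact P₀.add_mem (hmem b hb a ha) ((hm1 s).1 hs).2
    have hunion : (A - S₁).card + (A - S').card ≤ (A - S).card := by
      rw [← Finset.card_union_of_disjoint hdisj]
      exact Finset.card_le_card (Finset.union_subset hsub1 hsub2)
    have hle' : (A - S').card ≤ S'.card := by omega
    -- all translates `a - S'` are equal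
    have htr : ∀ a ∈ A, ∀ b ∈ A, ∀ s ∈ S', s + (a - b) ∈ S' := by
      intro a ha b hb s hs
      have himg : S'.image (fun t => a - t) = A - S' := by
        refine Finset.eq_of_subset_of_card_le ?_ ?_
        · intro y hy
          obtain ⟨t, ht, rfl⟩ := Finset.mem_image.1 hy
          exact Finset.sub_mem_sub ha ht
        · rw [Finset.card_image_of_injective S' (sub_right_injective (b := a))]
          exact hle'
      have h1 : b - s ∈ A - S' := Finset.sub_mem_sub hb hs
      rw [← himg] at h1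
      obtain ⟨t, ht, hts⟩ := Finset.mem_image.1 h1
      have : s + (a - b) = t := by
        have : t = a - (b - s) := by rw [← hts]; abel
        rw [this]; abel
      rw [this]
      exact ht
    have hper : ∀ q ∈ P₀, ∀ s ∈ S', s + q ∈ S' ∧ s - q ∈ S' := by
      intro q hq
      rw [hP₀] at hq
      induction hq using AddSubgroup.closure_induction with
      | mem q hq =>
        obtain ⟨a, ha, b, hb, rfl⟩ := hq
        intro s hs
        refine ⟨htr a ha b hb s hs, ?_⟩
        have := htr b hb a ha s hs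
        rwa [show s + (b - a) = s - (a - b) by abel] at this
      | zero => intro s hs; simpa using hs
      | add q r _ _ hq hr =>
        intro s hs
        refine ⟨?_, ?_⟩
        · rw [← add_assoc]; exact (hr _ (hq s hs).1).1
        · rw [sub_add_eq_sub_sub]; exact (hr _ (hq s hs).2).2
      | neg q _ hq =>
        intro s hs
        refine ⟨?_, ?_⟩
        · rw [← sub_eq_add_neg]; exact (hq s hs).2
        · rw [sub_neg_eq_add]; exact (hq s hs).1
    obtain ⟨C, hC⟩ := v4_filter P₀ s₀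
    have hcC := v4_card_coset P₀ s₀ C hC
    have hsat : sat P₀ S ⊆ S' ∪ C := by
      intro y hy
      obtain ⟨s, hs, hys⟩ := mem_sat.1 hy
      rw [Finset.mem_union]
      by_cases hss : s - s₀ ∈ P₀
      · right
        rw [hC, show y - s₀ = (y - s) + (s - s₀) by abel]
        exact P₀.add_mem hys hss
      · left
        have := (hper _ hys s ((hm2 s).2 ⟨hs, hss⟩)).1
        rwa [add_sub_cancel] at this
    have h5 := (Finset.card_le_card hsat).trans (Finset.card_union_le S' C)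
    have h6 : 0 < S₁.card := Finset.card_pos.2 ⟨s₀, hs₁⟩
    omega

end all

end Pool.Agent.TA.V

example : type_of% @Pool.Agent.TA.V.sid_coset := @Pool.Agent.TA.V.sid_coset
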