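import Pool.Agent.Lib_helper47.TA.F2.V4

/-!
# Project TA, block V5: the step
-/

set_option autoImplicit false

namespace Pool.Agent.TA.V

open scoped Pointwise

section all
variable {G : Type*} [AddCommGroup G] [Fintype G] [DecidableEq G]

/-- the coset `a + P` minus `S` has as many elements as the saturation of `S` -/
theorem v5_coset_card (P : AddSubgroup G) (a : G) (A S : Finset G) (h : ∀ x, x ∈ A ↔ x - a ∈ P) :
    (A - S).card = (sat P S).card := by
  refine Finset.card_nbij' (fun x => a - x) (fun x => a - x) ?_ ?_ ?_ ?_
  · intro x hx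
    obtain ⟨y, hy, s, hs, rfl⟩ := Finset.mem_sub.1 (Finset.mem_coe.1 hx)
    refine Finset.mem_coe.2 (mem_sat.2 ⟨s, hs, ?_⟩)
    have h1 := P.neg_mem ((h y).1 hy)
    have e : a - (y - s) - s = -(y - a) := by abel
    show a - (y - s) - s ∈ P
    rwa [e]
  · intro x hx
    obtain ⟨s, hs, hp⟩ := mem_sat.1 (Finset.mem_coe.1 hx)
    refine Finset.mem_coe.2 (Finset.mem_sub.2 ⟨a - x + s, (h _).2 ?_, s, hs, add_sub_cancel_right _ _⟩)
    have e : a - x + s - a = -(x - s) := by abel
    rw [e]
    exact P.neg_mem hp
  · intro x _
    exact sub_sub_cancel a x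
  · intro x _
    exact sub_sub_cancel a x

omit [Fintype G] [DecidableEq G] in
/-- the number of elements of a coset -/
theorem v5_coset (P : AddSubgroup G) (a : G) (A : Finset G) (h : ∀ x, x ∈ A ↔ x - a ∈ P) :
    A.card = Nat.card P := by
  have h1 : Nat.card {x // x ∈ A} = A.card := by
    rw [Nat.card_eq_fintype_card, Fintype.card_coe]
  rw [← h1]
  refine Nat.card_congr ⟨fun x => ⟨x.1 - a, (h x.1).1 x.2⟩, fun p => ⟨p.1 + a, ?_⟩, ?_, ?_⟩
  · rw [h, add_sub_cancel_right]
    exact p.2
  · intro x
    exact Subtype.ext (sub_add_cancel x.1 a)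
  · intro p
    exact Subtype.ext (add_sub_cancel_right p.1 a)

theorem ext_step (k : ℕ) (S : Finset G) (h : Ext k S) :
    ∃ d : G, d ≠ 0 ∧ k ≤ (S ∩ tr d S).card + 1 := by
  obtain ⟨h2, hG, hS, hR⟩ := id h
  have hSa : Adm S S := ⟨by omega, by omega⟩
  obtain ⟨A, hA⟩ := atom_exists S ⟨S, hSa⟩
  have hAS : (A - S).card + 1 ≤ A.card + k := by
    have := hA.min S hSa
    omega
  have hAa := hA.adm
  rcases atom_or S A hA with hs | ⟨P, a, hP, hAP⟩
  · rcases Nat.lt_or_ge 2 A.card with h3 | h3
    · exfalso
      -- the 2-atom of `A`
      have hSA : Adm A S := ⟨by omega, by rw [sub_card_comm]; exact hAa.2⟩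
      obtain ⟨M, hM⟩ := atom_exists A ⟨S, hSA⟩
      have hMa := hM.adm
      have hMA : (M - A).card + 1 ≤ M.card + A.card := by
        have h4 := hM.min S hSA
        rw [sub_card_comm S A] at h4
        omega
      rcases atom_or A M hM with hsM | ⟨P, a, hP, hMP⟩
      · have h5 := sub_card_two A M hs hMa.1
        rw [sub_card_comm A M] at h5
        rcases Nat.lt_or_ge 2 M.card with h6 | h6
        · have h7 := sub_card_three A M hs h6
          have h8 := sub_card_three M A hsM h3
          rw [sub_card_comm A M] at h7
          omega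
        · omega
      · have h5 := v5_coset_card P a M A hMP
        have h6 := v5_coset P a M hMP
        have hAP : ∀ x ∈ A, ∀ y ∈ A, x - y ∈ P := by
          intro x hx y hy
          by_contra hn
          have h7 := sid_sat P hP A hs ⟨x, hx, y, hy, hn⟩
          omega
        have hPt : P ≠ ⊤ := by
          intro hPt
          have h8 : M = Finset.univ := by
            rw [Finset.eq_univ_iff_forall]
            intro x
            rw [hMP, hPt]
            exact AddSubgroup.mem_top _
          have h9 : M.card = Fintype.card G := by rw [h8, Finset.card_univ]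
          have h10 : M.card ≤ (M - A).card := by
            have h11 : A.Nonempty := by rw [← Finset.card_pos]; omega
            exact Finset.card_le_card_sub_right h11
          have := hMa.2
          omega
        have h7 := sid_coset k S h A hs h3 P hPt hAP
        omega
    · -- `A = {a, b}`
      have hA2 : A.card = 2 := le_antisymm h3 hAa.1
      obtain ⟨a, b, hab, rfl⟩ := Finset.card_eq_two.1 hA2
      refine ⟨a - b, sub_ne_zero.2 hab, ?_⟩
      have h4 : ({a, b} : Finset G) - S = S.image (fun s => a - s) ∪ S.image (fun s => b - s) := by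
        ext x
        simp only [Finset.mem_sub, Finset.mem_union, Finset.mem_image, Finset.mem_insert,
          Finset.mem_singleton]
        constructor
        · rintro ⟨y, rfl | rfl, s, hs, rfl⟩
          · exact Or.inl ⟨s, hs, rfl⟩
          · exact Or.inr ⟨s, hs, rfl⟩
        · rintro (⟨s, hs, rfl⟩ | ⟨s, hs, rfl⟩)
          · exact ⟨a, Or.inl rfl, s, hs, rfl⟩
          · exact ⟨b, Or.inr rfl, s, hs, rfl⟩
      have h5 : (S.image (fun s => a - s) ∩ S.image (fun s => b - s)).card ≤
          (S ∩ tr (a - b) S).card := by
        refine Finset.card_le_card_of_injOn (fun x => a - x) ?_ ?_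
        · intro x hx
          obtain ⟨h6, h7⟩ := Finset.mem_inter.1 (Finset.mem_coe.1 hx)
          obtain ⟨s, hs, rfl⟩ := Finset.mem_image.1 h6
          obtain ⟨s', hs', he⟩ := Finset.mem_image.1 h7
          refine Finset.mem_coe.2 (Finset.mem_inter.2 ⟨?_, ?_⟩)
          · show a - (a - s) ∈ S
            rwa [sub_sub_cancel]
          · rw [mem_tr]
            have e : a - (a - s) - (a - b) = s' := by
              have : s' = b - (a - s) := by rw [← he, sub_sub_cancel]
              rw [this]
              abel
            show a - (a - s) - (a - b) ∈ S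
            rwa [e]
        · intro x _ y _ hxy
          exact sub_right_injective hxy
      have h6 := Finset.card_union_add_card_inter (S.image (fun s => a - s))
        (S.image (fun s => b - s))
      rw [← h4, Finset.card_image_of_injective _ sub_right_injective,
        Finset.card_image_of_injective _ sub_right_injective] at h6
      omega
  · exfalso
    have h5 := v5_coset_card P a A S hAP
    have h6 := v5_coset P a A hAP
    have hPt : P ≠ ⊤ := by
      intro hPt
      have h8 : A = Finset.univ := by
        rw [Finset.eq_univ_iff_forall]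
        intro x
        rw [hAP, hPt]
        exact AddSubgroup.mem_top _
      have h9 : A.card = Fintype.card G := by rw [h8, Finset.card_univ]
      have h10 : A.card ≤ (A - S).card := by
        have h11 : S.Nonempty := by rw [← Finset.card_pos]; omega
        exact Finset.card_le_card_sub_right h11
      have := hAa.2
      omega
    have h7 := ext_one k S h P hPt
    obtain ⟨r, hr, p, hp, hn⟩ := ext_aper k S h P hP
    exact hn (near_periodic S P (by omega) h7 r hr p hp)

end all

end Pool.Agent.TA.V

example : type_of% @Pool.Agent.TA.V.ext_step := @Pool.Agent.TA.V.ext_step
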