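import Pool.Agent.Lib_helper47.TA.F2.V5

/-!
# Block V6 of project TA (second part): the progression
-/

set_option autoImplicit false

namespace Pool.Agent.TA.V

open scoped Pointwise

section all
variable {G : Type*} [AddCommGroup G] [Fintype G] [DecidableEq G]

omit [DecidableEq G] in
private theorem inv_of_step {d : G} {T : Set G} (h : ∀ x ∈ T, x - d ∈ T) :
    ∀ p ∈ AddSubgroup.zmultiples d, ∀ x ∈ T, x + p ∈ T := by
  intro p hp x hx
  have h1 : p ∈ AddSubgroup.zmultiples (-d) := by
    rw [AddSubgroup.zmultiples_neg]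
    exact hp
  rw [← mem_multiples_iff_mem_zmultiples, AddSubmonoid.mem_multiples_iff] at h1
  obtain ⟨n, rfl⟩ := h1
  clear hp
  induction n generalizing x with
  | zero => simpa using hx
  | succ n ih =>
    have h2 := ih (x - d) (h x hx)
    have e : x + (n + 1) • (-d) = x - d + n • (-d) := by
      rw [add_smul, one_smul]
      abel
    rw [e]
    exact h2

theorem ext_run (k : ℕ) (S : Finset G) (h : Ext k S) (d : G) (hd : d ≠ 0)
    (hk : k ≤ (S ∩ tr d S).card + 1) :
    addOrderOf d = 4 * k - 1 ∧ ∃ s : G, ∀ x, x ∈ S ↔ ∃ i : ℕ, i < k ∧ x = s + i • d := by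
  have hP : AddSubgroup.zmultiples d ≠ ⊥ := by
    rw [Ne, AddSubgroup.zmultiples_eq_bot]
    exact hd
  obtain ⟨r, hr, p, hp, hrp⟩ := ext_aper k S h _ hP
  rw [Finset.mem_sub] at hr
  obtain ⟨a, ha, b, hb, rfl⟩ := hr
  have htwo := h.two
  have hcS := h.cardS
  -- the set of the elements with no predecessor
  have hmem : ∀ x, x ∈ S ∩ tr d S ↔ x ∈ S ∧ x - d ∈ S := by
    intro x
    rw [Finset.mem_inter, mem_tr]
  have hcard1 : (S \ (S ∩ tr d S)).card ≤ 1 := by
    have h1 := Finset.card_sdiff_add_card_eq_card (Finset.inter_subset_left (s₁ := S) (s₂ := tr d S))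
    omega
  have hne : (S \ (S ∩ tr d S)).Nonempty := by
    by_contra hcon
    rw [Finset.not_nonempty_iff_eq_empty, Finset.sdiff_eq_empty_iff_subset] at hcon
    have h1 : ∀ x ∈ (S : Set G), x - d ∈ (S : Set G) := by
      intro x hx
      exact ((hmem x).mp (hcon hx)).2
    have h2 := inv_of_step h1 p hp a ha
    apply hrp
    rw [Finset.mem_sub]
    exact ⟨a + p, h2, b, hb, by abel⟩
  obtain ⟨s, hs⟩ := hne
  rw [Finset.mem_sdiff, hmem] at hs
  obtain ⟨hsS, hs2⟩ := hs
  have hsd : s - d ∉ S := fun h1 => hs2 ⟨hsS, h1⟩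
  have hpred : ∀ x ∈ S, x ≠ s → x - d ∈ S := by
    intro x hx hxs
    by_contra hcon
    have h1 : x ∈ S \ (S ∩ tr d S) := by
      rw [Finset.mem_sdiff, hmem]
      exact ⟨hx, fun h2 => hcon h2.2⟩
    have h2 : s ∈ S \ (S ∩ tr d S) := by
      rw [Finset.mem_sdiff, hmem]
      exact ⟨hsS, hs2⟩
    exact hxs (Finset.card_le_one.mp hcard1 x h1 s h2)
  -- all the points of the run
  have hrun : ∀ i < k, s + i • d ∈ S := by
    by_contra hcon
    push Not at hcon
    classical
    have hex : ∃ m, m < k ∧ s + m • d ∉ S := hcon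
    set m := Nat.find hex with hm
    obtain ⟨hmk, hmS⟩ := Nat.find_spec hex
    rw [← hm] at hmk hmS
    have hmin : ∀ i < m, s + i • d ∈ S := by
      intro i hi
      by_contra hc
      exact Nat.find_min hex hi ⟨by omega, hc⟩
    set Q : Finset G := (Finset.range m).image fun i => s + i • d with hQ
    have hQc : Q.card ≤ m := by
      refine Finset.card_image_le.trans ?_
      rw [Finset.card_range]
    have hm0 : 0 < m := by
      rcases Nat.eq_zero_or_pos m with h0 | h0
      · rw [h0, zero_smul, add_zero] at hmS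
        exact absurd hsS hmS
      · exact h0
    have hS' : (S \ Q).Nonempty := by
      rw [← Finset.card_pos]
      have h1 := Finset.le_card_sdiff Q S
      omega
    have hstep : ∀ x ∈ ((S \ Q : Finset G) : Set G), x - d ∈ ((S \ Q : Finset G) : Set G) := by
      intro x hx
      rw [Finset.mem_coe, Finset.mem_sdiff] at hx ⊢
      obtain ⟨hxS, hxQ⟩ := hx
      have hxs : x ≠ s := by
        rintro rfl
        apply hxQ
        rw [hQ, Finset.mem_image]
        exact ⟨0, Finset.mem_range.mpr hm0, by simp⟩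
      refine ⟨hpred x hxS hxs, fun h1 => ?_⟩
      rw [hQ, Finset.mem_image] at h1
      obtain ⟨i, hi, hi2⟩ := h1
      rw [Finset.mem_range] at hi
      have h2 : x = s + (i + 1) • d := by
        rw [add_smul, one_smul, ← add_assoc, hi2, sub_add_cancel]
      rcases Nat.lt_or_ge (i + 1) m with h3 | h3
      · apply hxQ
        rw [hQ, Finset.mem_image]
        exact ⟨i + 1, Finset.mem_range.mpr h3, h2.symm⟩
      · have h4 : i + 1 = m := by omega
        rw [h4] at h2
        rw [h2] at hxS
        exact hmS hxS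
    have hinv := inv_of_step hstep
    have hsub : ∀ x, x ∈ ((S \ Q : Finset G) : Set G) → x ∈ S := fun x hx =>
      (Finset.mem_sdiff.mp hx).1
    apply hrp
    rw [Finset.mem_sub]
    by_cases haQ : a ∈ Q
    · by_cases hbQ : b ∈ Q
      · obtain ⟨x, hx⟩ := hS'
        have haP : a - b ∈ AddSubgroup.zmultiples d := by
          rw [hQ, Finset.mem_image] at haQ hbQ
          obtain ⟨i, _, rfl⟩ := haQ
          obtain ⟨j, _, rfl⟩ := hbQ
          have e : s + i • d - (s + j • d) = i • d - j • d := by abel
          rw [e]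
          exact sub_mem (nsmul_mem (AddSubgroup.mem_zmultiples d) i)
            (nsmul_mem (AddSubgroup.mem_zmultiples d) j)
        have h1 := hinv _ (add_mem haP hp) x hx
        exact ⟨x + (a - b + p), hsub _ h1, x, hsub _ hx, by abel⟩
      · have h1 := hinv _ (neg_mem hp) b (Finset.mem_sdiff.mpr ⟨hb, hbQ⟩)
        exact ⟨a, ha, b + -p, hsub _ h1, by abel⟩
    · have h1 := hinv _ hp a (Finset.mem_sdiff.mpr ⟨ha, haQ⟩)
      exact ⟨a + p, hsub _ h1, b, hb, by abel⟩
  -- the points are distinct
  have hinj : ∀ i < k, ∀ j < k, i < j → s + i • d ≠ s + j • d := by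
    intro i hi j hj hij he
    have h1 : (j - i) • d = 0 := by
      have h2 : i • d = j • d := add_left_cancel he
      have h3 : j • d = i • d + (j - i) • d := by
        rw [← add_smul]
        congr 1
        omega
      rw [h3] at h2
      exact (left_eq_add.mp h2)
    have h2 : s - d = s + (j - i - 1) • d := by
      have h3 : (j - i) • d = (j - i - 1) • d + d := by
        rw [← succ_nsmul]
        congr 1
        omega
      rw [h3] at h1
      rw [eq_neg_of_add_eq_zero_left h1]
      abel
    apply hsd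
    rw [h2]
    exact hrun _ (by omega)
  have hinj2 : Set.InjOn (fun i : ℕ => s + i • d) (Finset.range k : Set ℕ) := by
    intro i hi j hj he
    rw [Finset.mem_coe, Finset.mem_range] at hi hj
    rcases lt_trichotomy i j with h1 | h1 | h1
    · exact absurd he (hinj i hi j hj h1)
    · exact h1
    · exact absurd he.symm (hinj j hj i hi h1)
  have hSeq : (Finset.range k).image (fun i => s + i • d) = S := by
    refine Finset.eq_of_subset_of_card_le ?_ ?_
    · intro x hx
      rw [Finset.mem_image] at hx
      obtain ⟨i, hi, rfl⟩ := hx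
      exact hrun i (Finset.mem_range.mp hi)
    · rw [Finset.card_image_of_injOn hinj2, Finset.card_range, hcS]
  have hchar : ∀ x, x ∈ S ↔ ∃ i : ℕ, i < k ∧ x = s + i • d := by
    intro x
    rw [← hSeq, Finset.mem_image]
    constructor
    · rintro ⟨i, hi, rfl⟩
      exact ⟨i, Finset.mem_range.mp hi, rfl⟩
    · rintro ⟨i, hi, rfl⟩
      exact ⟨i, Finset.mem_range.mpr hi, rfl⟩
  refine ⟨?_, s, hchar⟩
  -- the order
  have hsubP : ((S - S : Finset G) : Set G) ⊆ (AddSubgroup.zmultiples d : Set G) := by
    intro x hx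
    rw [Finset.mem_coe, Finset.mem_sub] at hx
    obtain ⟨y, hy, z, hz, rfl⟩ := hx
    obtain ⟨i, _, rfl⟩ := (hchar y).mp hy
    obtain ⟨j, _, rfl⟩ := (hchar z).mp hz
    have e : s + i • d - (s + j • d) = i • d - j • d := by abel
    rw [e]
    exact sub_mem (nsmul_mem (AddSubgroup.mem_zmultiples d) i)
      (nsmul_mem (AddSubgroup.mem_zmultiples d) j)
  have hle : (S - S).card ≤ addOrderOf d := by
    have h1 := Set.ncard_le_ncard hsubP (Set.toFinite _)
    rw [Set.ncard_coe_finset] at h1
    have h2 : (AddSubgroup.zmultiples d : Set G).ncard = addOrderOf d := by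
      rw [← Nat.card_coe_set_eq]
      exact Nat.card_zmultiples d
    rw [h2] at h1
    exact h1
  have hdvd : addOrderOf d ∣ Fintype.card G := addOrderOf_dvd_card
  have hcG := h.cardG
  have hcR := h.cardR
  obtain ⟨q, hq⟩ := hdvd
  have hq0 : q ≠ 0 := by
    rintro rfl
    rw [mul_zero] at hq
    omega
  have hq1 : q = 1 := by
    by_contra hne1
    have hq2 : 2 ≤ q := by omega
    rcases Nat.lt_or_ge q 3 with h3 | h3
    · have h4 : q = 2 := by omega
      subst h4
      omega
    · have h4 : addOrderOf d * 3 ≤ addOrderOf d * q := Nat.mul_le_mul_left _ h3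
      omega
  rw [hq1, mul_one] at hq
  omega

example : type_of% @ext_run := @ext_run

end all

end Pool.Agent.TA.V
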