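import Pool.Agent.Lib_helper47.TA.F2.V6

set_option autoImplicit false

namespace Pool.Agent.TA.V

open scoped Pointwise

theorem v8_dvd {G : Type*} [AddCommGroup G] [Fintype G] [DecidableEq G] (H : AddSubgroup G)
    (D : Finset G) (h : ∀ x ∈ D, ∀ y ∈ H, x + y ∈ D) : Nat.card H ∣ D.card := by
  let t : Set (G ⧸ H) := QuotientAddGroup.mk '' (D : Set G)
  have ht : (QuotientAddGroup.mk ⁻¹' t : Set G) = (D : Set G) := by
    ext x
    constructor
    · rintro ⟨a, ha, hax⟩
      have h1 : -a + x ∈ H := QuotientAddGroup.eq.mp hax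
      have h2 := h a ha _ h1
      have h3 : a + (-a + x) = x := by abel
      rw [h3] at h2
      exact h2
    · intro hx
      exact ⟨x, hx, rfl⟩
  have e := Nat.card_congr (QuotientAddGroup.preimageMkEquivAddSubgroupProdSet H t)
  rw [Nat.card_prod] at e
  rw [ht] at e
  refine ⟨Nat.card t, ?_⟩
  rw [← e]
  simp

theorem zmod_card (k : ℕ) (hk : 0 < k) (S : Finset (ZMod (4 * k - 1))) (hS : k ≤ S.card)
    (hR : (S - S).card = 2 * k - 1) : S.card = k := by
  have : NeZero (4 * k - 1) := ⟨by omega⟩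
  have hne : S.Nonempty := Finset.card_pos.mp (by omega)
  have hne' : (-S).Nonempty := hne.neg
  obtain ⟨H, K, hK, hper, hle⟩ := Pool.Agent.Lib_helper30.Kneser.kneser_add S (-S) hne hne'
  rw [← sub_eq_add_neg] at hper hle
  have hKcard : K.card = Nat.card H := by
    have h1 : (K : Set (ZMod (4 * k - 1))).ncard = K.card := Set.ncard_coe_finset K
    rw [← h1, hK]
    rfl
  have hclosed : ∀ x ∈ S - S, ∀ y ∈ H, x + y ∈ S - S := by
    intro x hx y hy
    have hy' : y ∈ K := by
      rw [← Finset.mem_coe, hK]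
      exact hy
    have h1 := Finset.add_mem_add hx hy'
    rwa [hper] at h1
  have hd1 : Nat.card H ∣ 2 * k - 1 := by
    have h1 := v8_dvd H (S - S) hclosed
    rwa [hR] at h1
  have hd2 : Nat.card H ∣ 4 * k - 1 := by
    have h1 := AddSubgroup.card_addSubgroup_dvd_card H
    rwa [Nat.card_zmod] at h1
  have hone : Nat.card H = 1 := by
    have h1 : Nat.card H ∣ (4 * k - 1) - 2 * (2 * k - 1) := Nat.dvd_sub hd2 (Dvd.dvd.mul_left hd1 2)
    have h2 : (4 * k - 1) - 2 * (2 * k - 1) = 1 := by omega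
    rw [h2] at h1
    exact Nat.dvd_one.mp h1
  have h0 : (0 : ZMod (4 * k - 1)) ∈ K := by
    rw [← Finset.mem_coe, hK]
    exact H.zero_mem
  have h3 : S.card ≤ (S + K).card := Finset.card_le_card (Finset.subset_add_left S h0)
  have h4 : (-S).card ≤ (-S + K).card := Finset.card_le_card (Finset.subset_add_left (-S) h0)
  rw [Finset.card_neg] at h4
  rw [hKcard, hone, hR] at hle
  omega

end Pool.Agent.TA.V

example : type_of% @Pool.Agent.TA.V.zmod_card := @Pool.Agent.TA.V.zmod_card
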